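import Pool.Agent.Helper32.OIP.Goals

open MeasureTheory Pool.Agent.Helper32.OIP Pool.Agent.Helper58.Orb

namespace Pool.Agent.Helper89.OIP

theorem sh_sh {A E : Type} [Group A] (g h : A) (z : A → E) : sh g (sh h z) = sh (g * h) z := by
  funext x
  simp [sh, mul_assoc]

theorem isSwap_eq {D : Type} [DecidableEq D] {f : Equiv.Perm D} {a b : D} (hf : f.IsSwap)
    (hab : a ≠ b) (h : f a = b) : f = Equiv.swap a b := by
  obtain ⟨x, y, hxy, rfl⟩ := hf
  by_cases hx : a = x
  · subst hx
    rw [Equiv.swap_apply_left] at h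
    rw [h]
  · by_cases hy : a = y
    · subst hy
      rw [Equiv.swap_apply_right] at h
      rw [h, Equiv.swap_comm]
    · rw [Equiv.swap_apply_of_ne_of_ne hx hy] at h
      exact absurd h hab

/-- The transposition at the place number `i` of the run. -/
def rho {A : Type} [Group A] {S : Set A} {D : Type} [DecidableEq D] (T : TreeData A S D)
    (s t : D) (i : ℕ) : Equiv.Perm D :=
  if Even i then Equiv.swap s t else Equiv.swap (T.inv s) (T.inv t)

section

variable {A : Type} [Group A] {S : Set A} {D : Type} [DecidableEq D] (T : TreeData A S D)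

omit [DecidableEq D] in
theorem inv_ne {s t : D} (h : s ≠ t) : T.inv s ≠ T.inv t := by
  intro h'
  apply h
  rw [← T.inv_inv s, h', T.inv_inv]

theorem rho_ne_one {s t : D} (h : s ≠ t) (i : ℕ) : rho T s t i ≠ 1 := by
  unfold rho
  split_ifs
  · intro h'
    exact h (Equiv.swap_eq_one_iff.mp h')
  · intro h'
    exact inv_ne T h (Equiv.swap_eq_one_iff.mp h')

/-- The value of `rho` at the next letter. -/
theorem rho_letter (s t : D) (i : ℕ) :
    rho T s t i (if Even i then s else T.inv t) = if Even i then t else T.inv s := by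
  unfold rho
  split_ifs
  · exact Equiv.swap_apply_left s t
  · exact Equiv.swap_apply_right _ _

theorem step {E : Type} (π : (A → E) → Equiv.Perm D) (z : A → E)
    (hedge : ∀ g s, π (sh (T.dir s) (sh g z)) (T.inv s) = T.inv (π (sh g z) s)) (s t : D)
    (hst : s ≠ t) (i : ℕ) (hi : π (sh (gw T s t i) z) = rho T s t i)
    (hb : ¬ Br (π (sh (gw T s t (i + 1)) z))) :
    π (sh (gw T s t (i + 1)) z) = rho T s t (i + 1) := by
  have h1 := hedge (gw T s t i) (if Even i then s else T.inv t)
  rw [hi, rho_letter, sh_sh] at h1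
  have h2 : T.dir (if Even i then s else T.inv t) * gw T s t i = gw T s t (i + 1) := rfl
  rw [h2] at h1
  by_cases he : Even i
  · have ho : ¬ Even (i + 1) := by
      rw [Nat.even_add_one]; exact not_not.mpr he
    simp only [if_pos he] at h1
    have hne := inv_ne T hst
    have hsw : (π (sh (gw T s t (i + 1)) z)).IsSwap := by
      by_contra hns
      apply hb
      refine ⟨?_, hns⟩
      intro h3
      rw [h3, Equiv.Perm.one_apply] at h1
      exact hne h1
    rw [isSwap_eq hsw hne h1]
    simp only [rho, if_neg ho]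
  · have ho : Even (i + 1) := Nat.even_add_one.mpr he
    simp only [if_neg he, T.inv_inv] at h1
    have hsw : (π (sh (gw T s t (i + 1)) z)).IsSwap := by
      by_contra hns
      apply hb
      refine ⟨?_, hns⟩
      intro h3
      rw [h3, Equiv.Perm.one_apply] at h1
      exact hst h1.symm
    rw [isSwap_eq hsw (Ne.symm hst) h1]
    simp only [rho, if_pos ho]
    exact Equiv.swap_comm t s

theorem run {E : Type} (π : (A → E) → Equiv.Perm D) (J : (A → E) → (A → E)) (z : A → E)
    (hedge : ∀ g s, π (sh (T.dir s) (sh g z)) (T.inv s) = T.inv (π (sh g z) s))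
    (hJ : ∀ g s, J (sh (T.dir s) (sh g z)) = sh (T.dir (π (sh g z) s)) (J (sh g z))) (s t : D)
    (hst : s ≠ t) (k : ℕ) (h0 : π z = Equiv.swap s t)
    (hb : ∀ i < k, ¬ Br (π (sh (gw T s t (i + 1)) z))) (i : ℕ) (hi : i ≤ k) :
    π (sh (gw T s t i) z) = rho T s t i ∧ J (sh (gw T s t i) z) = sh (gw T t s i) (J z) := by
  induction i with
  | zero =>
    have e : ∀ w : A → E, sh (1 : A) w = w := fun w => by funext x; simp [sh]
    refine ⟨?_, ?_⟩
    · change π (sh 1 z) = _
      rw [e, h0]
      simp [rho]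
    · change J (sh 1 z) = sh 1 (J z)
      rw [e, e]
  | succ i ih =>
    obtain ⟨ih1, ih2⟩ := ih (by omega)
    refine ⟨step T π z hedge s t hst i ih1 (hb i (by omega)), ?_⟩
    have h1 := hJ (gw T s t i) (if Even i then s else T.inv t)
    rw [ih1, rho_letter, sh_sh, ih2, sh_sh] at h1
    exact h1

end

theorem r1 : GoalR1 := by
  intro hMA A E _ _ _ S D _ _ T ν _ π J hπ hedge hJ s t hst k
  have hMP : ∀ g : A, MeasurePreserving (sh g : (A → E) → (A → E)) (pm A ν) (pm A ν) :=
    fun g => hMA.2.2 A E ν g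
  have : IsProbabilityMeasure (pm A ν) := by
    unfold pm; infer_instance
  have hE : ∀ᵐ z ∂(pm A ν), ∀ g s, π (sh (T.dir s) (sh g z)) (T.inv s) = T.inv (π (sh g z) s) :=
    ae_all_iff.mpr fun g => (hMP g).quasiMeasurePreserving.ae hedge
  have hJ' : ∀ᵐ z ∂(pm A ν), ∀ g s,
      J (sh (T.dir s) (sh g z)) = sh (T.dir (π (sh g z) s)) (J (sh g z)) :=
    ae_all_iff.mpr fun g => (hMP g).quasiMeasurePreserving.ae hJ
  have hBm : MeasurableSet {z | Br (π z)} := by
    have : {z | Br (π z)} = ⋃ σ ∈ {σ : Equiv.Perm D | Br σ}, {z | π z = σ} := by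
      ext z
      simp
    rw [this]
    exact MeasurableSet.biUnion (Set.to_countable _) fun σ _ => hπ σ
  have hBi : ∀ g : A, (pm A ν).real {z | Br (π (sh g z))} = (pm A ν).real {z | Br (π z)} := by
    intro g
    have := (hMP g).measure_preimage hBm.nullMeasurableSet
    simp only [Measure.real]
    rw [← this]
    rfl
  set G : Set (A → E) := {z | ∀ i ≤ k, π (sh (gw T s t i) z) ≠ 1 ∧
          J (sh (gw T s t i) z) = sh (gw T t s i) (J z)} with hG
  have hsub : {z | π z = Equiv.swap s t} ≤ᵐ[pm A ν]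
      (G ∪ ⋃ i ∈ Finset.range k, {z | Br (π (sh (gw T s t (i + 1)) z))} : Set (A → E)) := by
    filter_upwards [hE, hJ'] with z h1 h2
    intro h0
    by_cases hb : ∀ i < k, ¬ Br (π (sh (gw T s t (i + 1)) z))
    · left
      intro i hi
      obtain ⟨h3, h4⟩ := run T π J z h1 h2 s t hst k h0 hb i hi
      exact ⟨by rw [h3]; exact rho_ne_one T hst i, h4⟩
    · right
      push Not at hb
      obtain ⟨i, hi, hb⟩ := hb
      exact Set.mem_biUnion (Finset.mem_coe.mpr (Finset.mem_range.mpr hi)) hb
  have h5 : (pm A ν).real {z | π z = Equiv.swap s t} ≤ (pm A ν).real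
      (G ∪ ⋃ i ∈ Finset.range k, {z | Br (π (sh (gw T s t (i + 1)) z))}) := by
    exact ENNReal.toReal_mono (measure_ne_top _ _) (measure_mono_ae hsub)
  have h6 := measureReal_union_le (μ := pm A ν) G
    (⋃ i ∈ Finset.range k, {z | Br (π (sh (gw T s t (i + 1)) z))})
  have h7 := measureReal_biUnion_finset_le (μ := pm A ν) (Finset.range k)
    (fun i => {z | Br (π (sh (gw T s t (i + 1)) z))})
  simp only [hBi, Finset.sum_const, Finset.card_range, nsmul_eq_mul] at h7
  linarith

end Pool.Agent.Helper89.OIP
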